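import Pool.Agent.H79.BN.Targets

/-!
Board nsep_modules, row V5: the interior of a table with vertices in convex position.
-/

set_option autoImplicit false

namespace Pool.Agent.H74.BN.V5

open MeasureTheory Set Filter Topology Pool.Agent.H93.BL Pool.Agent.H79.BN

/-- a preconnected set which misses the frontier of an open set and meets it is contained in it -/
theorem subset_of_frontier {Ω t : Set ℂ} (hΩ : IsOpen Ω) (ht : IsPreconnected t)
    (h1 : (t ∩ Ω).Nonempty) (h2 : ∀ y ∈ t, y ∉ frontier Ω) : t ⊆ Ω := by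
  refine ht.subset_left_of_subset_union (v := (closure Ω)ᶜ) hΩ isClosed_closure.isOpen_compl
    ?_ ?_ h1
  · rw [Set.disjoint_compl_right_iff_subset]
    exact subset_closure
  · intro y hy
    by_cases hyc : y ∈ closure Ω
    · left
      by_contra hyΩ
      apply h2 y hy
      rw [hΩ.frontier_eq]
      exact ⟨hyc, hyΩ⟩
    · right
      exact hyc

section

variable {n : ℕ} [NeZero n] {w : Fin n → ℂ}

theorem cr_seg (h4 : ∀ i j, 0 ≤ cr (ed w i) (w j - w i)) (i : Fin n) {y : ℂ}
    (hy : y ∈ segment ℝ (w i) (w (i + 1))) :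
    (∀ j, 0 ≤ cr (ed w j) (y - w j)) ∧ cr (ed w i) (y - w i) = 0 := by
  obtain ⟨a, b, ha, hb, hab, rfl⟩ := hy
  have hc : ∀ j, a • w i + b • w (i + 1) - w j =
      (a : ℂ) * (w i - w j) + (b : ℂ) * (w (i + 1) - w j) := by
    intro j
    have : (a : ℂ) + b = 1 := by exact_mod_cast hab
    rw [Complex.real_smul, Complex.real_smul]
    linear_combination (w j) * this
  refine ⟨fun j => ?_, ?_⟩
  · rw [hc, cr_add_right, cr_smul_right, cr_smul_right]
    exact add_nonneg (mul_nonneg ha (h4 j i)) (mul_nonneg hb (h4 j (i + 1)))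
  · rw [hc, cr_add_right, cr_smul_right, cr_smul_right, sub_self, cr_zero_right]
    have : cr (ed w i) (w (i + 1) - w i) = 0 := cr_self _
    rw [this]
    ring

end

theorem v5 (h1 : T_V1) (h2 : T_V2) : T_V5 := by
  intro n _ P hn hcyc hconv x
  obtain ⟨hed, -, -, h4, -⟩ := h1 n P.p hn hconv
  have hfr : ∀ y, y ∈ frontier P.Ω ↔ ∃ i, y ∈ segment ℝ (P.p i) (P.p (i + 1)) := by
    intro y
    rw [P.frontier_eq, Set.mem_iUnion]
    refine exists_congr fun i => ?_
    rw [hcyc i]
  have hdisj : ∀ y ∈ P.Ω, y ∉ frontier P.Ω := by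
    intro y hy hyf
    have := P.isOpen.inter_frontier_eq
    exact Set.eq_empty_iff_forall_notMem.1 this y ⟨hy, hyf⟩
  have key : ∀ y ∈ P.Ω, ∀ j, 0 < cr (ed P.p j) (y - P.p j) := by
    intro y hy
    have ha : ∀ j, 0 ≤ cr (ed P.p j) (y - P.p j) := by
      intro j
      by_contra hneg
      push Not at hneg
      set e := ed P.p j with he
      have hepos : 0 < ‖e‖ := norm_pos_iff.2 (hed j)
      have hip : 0 ≤ ip e e := by
        unfold ip
        nlinarith [mul_self_nonneg e.re, mul_self_nonneg e.im]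
      set R : Set ℂ := (fun t : ℝ => y - (t : ℂ) * (Complex.I * e)) '' Ici 0 with hR
      have hRc : IsPreconnected R := by
        refine isPreconnected_Ici.image _ (Continuous.continuousOn ?_)
        fun_prop
      have hRf : ∀ z ∈ R, z ∉ frontier P.Ω := by
        rintro z ⟨t, ht, rfl⟩ hzf
        obtain ⟨i, hi⟩ := (hfr _).1 hzf
        have h5 := (cr_seg h4 i hi).1 j
        have h6 : cr e (y - (t : ℂ) * (Complex.I * e) - P.p j) =
            cr e (y - P.p j) - t * ip e e := by
          rw [← cr_I_mul e e, ← cr_smul_right, ← cr_sub_right]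
          congr 1
          ring
        rw [h6] at h5
        have h7 : 0 ≤ t * ip e e := mul_nonneg ht hip
        linarith
      have hRm : (R ∩ P.Ω).Nonempty := by
        refine ⟨y, ⟨0, Set.mem_Ici.2 le_rfl, by simp⟩, hy⟩
      have hsub := subset_of_frontier P.isOpen hRc hRm hRf
      obtain ⟨B, hB⟩ := P.isBounded.exists_norm_le
      set t : ℝ := (|B| + ‖y‖ + 1) / ‖e‖ with ht
      have ht0 : 0 ≤ t := by positivity
      have hz := hB _ (hsub ⟨t, ht0, rfl⟩)
      have h8 : ‖(t : ℂ) * (Complex.I * e)‖ = |B| + ‖y‖ + 1 := by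
        rw [norm_mul, norm_mul, Complex.norm_I, one_mul, Complex.norm_real, Real.norm_eq_abs,
          abs_of_nonneg ht0, ht]
        field_simp
      have h9 : ‖(t : ℂ) * (Complex.I * e)‖ ≤ ‖y‖ + ‖y - (t : ℂ) * (Complex.I * e)‖ := by
        have := norm_sub_le y (y - (t : ℂ) * (Complex.I * e))
        rwa [sub_sub_cancel] at this
      have h10 : B ≤ |B| := le_abs_self B
      have hz' : ‖y - (t : ℂ) * (Complex.I * e)‖ ≤ B := hz
      rw [h8] at h9
      linarith
    intro j
    refine lt_of_le_of_ne (ha j) fun h0 => ?_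
    have h5 := h2 n P.p hn hconv j y ha h0.symm
    exact hdisj y hy ((hfr y).2 ⟨j, h5⟩)
  refine ⟨key x, fun hx => ?_⟩
  obtain ⟨y, hy⟩ := P.isConnected.nonempty
  have hyk := key y hy
  have hseg : segment ℝ y x ⊆ P.Ω := by
    refine subset_of_frontier P.isOpen (convex_segment y x).isPreconnected
      ⟨y, left_mem_segment ℝ y x, hy⟩ ?_
    rintro z ⟨a, b, ha, hb, hab, rfl⟩ hzf
    obtain ⟨i, hi⟩ := (hfr _).1 hzf
    have h5 := (cr_seg h4 i hi).2
    have h6 : a • y + b • x - P.p i = (a : ℂ) * (y - P.p i) + (b : ℂ) * (x - P.p i) := by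
      have : (a : ℂ) + b = 1 := by exact_mod_cast hab
      rw [Complex.real_smul, Complex.real_smul]
      linear_combination (P.p i) * this
    rw [h6, cr_add_right, cr_smul_right, cr_smul_right] at h5
    have h7 := hyk i
    have h8 := hx i
    rcases ha.eq_or_lt with h0 | h0
    · have hb1 : b = 1 := by linarith
      rw [← h0, hb1] at h5
      linarith
    · have h9 : 0 < a * cr (ed P.p i) (y - P.p i) := mul_pos h0 h7
      have h10 : 0 ≤ b * cr (ed P.p i) (x - P.p i) := mul_nonneg hb h8.le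
      linarith
  exact hseg (right_mem_segment ℝ y x)

end Pool.Agent.H74.BN.V5
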